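import Pool.Agent.Y150.CD.Main
import Pool.Agent.Y677.CD.A
import Pool.Agent.Y338.CD.Kum
import Pool.Agent.Y254.CD.Frob
import Pool.Agent.Y254.CD.Inv
import Pool.Agent.Y254.CD.Pur
import Pool.Agent.Y314.CD.Chf
import Pool.Agent.Y179.CD.Tau
import Pool.Agent.Y708.CD.Val
import Pool.Agent.Y145.CD.Tam
import Pool.Agent.Y145.CD.Pro
import Pool.Agent.Y217.CD.J

/-!
# `Ext²(ℚ₂, ℚ₂(2)) ≠ 0` (helper150; the steps are due to helpers 145, 179, 217, 254, 314, 338, 677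
and 708)
-/

set_option autoImplicit false

namespace Pool.Agent.Y150.CD

theorem extTwo (C : Rep → Prop) (hC : ∀ V, Mixed V → KummerType V → C V) :
    ∃ V W : Rep, IsTate 0 V ∧ IsTate 2 W ∧ ExtTwoNonzero C V W :=
  main Pool.Agent.Y677.CD.cyc Pool.Agent.Y677.CD.chi_spec
    (Pool.Agent.Y338.CD.kum Pool.Agent.Y677.CD.chi_spec) Pool.Agent.Y254.CD.frob
    (Pool.Agent.Y314.CD.chf Pool.Agent.Y677.CD.cyc Pool.Agent.Y677.CD.chi_spec)
    Pool.Agent.Y314.CD.kin Pool.Agent.Y314.CD.kfr Pool.Agent.Y179.CD.tau Pool.Agent.Y708.CD.val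
    (Pool.Agent.Y145.CD.tam' Pool.Agent.Y254.CD.frob
      (Pool.Agent.Y314.CD.chf Pool.Agent.Y677.CD.cyc Pool.Agent.Y677.CD.chi_spec))
    Pool.Agent.Y145.CD.pro Pool.Agent.Y217.CD.t_sel
    Pool.Agent.Y217.CD.t_sum Pool.Agent.Y254.CD.inv Pool.Agent.Y254.CD.pur
    Pool.Agent.Y145.CD.loc C hC

end Pool.Agent.Y150.CD
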