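import Mathlib

/-!
# Mixed `2`-adic representations of the absolute Galois group of `ℚ` (helper150)

Definitions for `MP_5968e7_ag`: `2`-adic representations of `G = Gal(ℚ̄/ℚ)`, pure and mixed
representations, Tate twists, the Yoneda group `Ext²` in a full subcategory.
-/

set_option autoImplicit false

namespace Pool.Agent.Y150.CD

/-- The algebraic closure of `ℚ`. -/
abbrev Qb : Type := AlgebraicClosure ℚ

/-- The absolute Galois group of `ℚ`, with its Krull topology. -/
abbrev G : Type := Qb ≃ₐ[ℚ] Qb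

/-- The ring of all algebraic integers in `ℚ̄`. -/
abbrev O : Type := integralClosure ℤ Qb

/-- The action of `G` on the algebraic integers. -/
noncomputable def act (g : G) (x : O) : O :=
  ⟨g (x : Qb), x.2.map (g.toAlgHom.restrictScalars ℤ)⟩

/-- `P` is a prime ideal of the ring of algebraic integers over the prime number `p`. -/
def Over (p : ℕ) (P : Ideal O) : Prop := P.IsPrime ∧ (p : O) ∈ P

/-- `g` is in the inertia group of `P`. -/
def Inert (P : Ideal O) (g : G) : Prop := ∀ x : O, act g x - x ∈ P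

/-- `g` is an (arithmetic) Frobenius element at the prime `P` over `p`. -/
def IsFrob (p : ℕ) (P : Ideal O) (g : G) : Prop := ∀ x : O, act g x - x ^ p ∈ P

/-- The `2`-adic cyclotomic character of `G`. -/
noncomputable def chi : G →* ℤ_[2]ˣ :=
  (cyclotomicCharacter Qb 2).comp (MulSemiringAction.toRingAut G Qb)

/-- The `2`-adic cyclotomic character with values in `ℚ₂ˣ`. -/
noncomputable def chiQ : G →* ℚ_[2]ˣ := (Units.map (algebraMap ℤ_[2] ℚ_[2]).toMonoidHom).comp chi

/-- A `2`-adic representation: a finite-dimensional `ℚ₂`-vector space with a continuous linear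
action of `G` (all matrix coefficients are continuous). -/
structure Rep where
  /-- the space -/
  V : Type
  [ac : AddCommGroup V]
  [mo : Module ℚ_[2] V]
  [fi : Module.Finite ℚ_[2] V]
  /-- the action -/
  ρ : G →* Module.End ℚ_[2] V
  cont : ∀ (v : V) (l : Module.Dual ℚ_[2] V), Continuous fun g : G => l (ρ g v)

attribute [instance] Rep.ac Rep.mo Rep.fi

/-- `f` is compatible with the actions. -/
def Equi (A B : Rep) (f : A.V →ₗ[ℚ_[2]] B.V) : Prop := ∀ g v, f (A.ρ g v) = B.ρ g (f v)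

/-- `0 → A → V → B → 0` is exact for suitable morphisms: `V` is an extension of `B` by `A`. -/
def IsExt (A V B : Rep) : Prop :=
  ∃ (f : A.V →ₗ[ℚ_[2]] V.V) (q : V.V →ₗ[ℚ_[2]] B.V), Equi A V f ∧ Equi V B q ∧
    Function.Injective f ∧ Function.Surjective q ∧ ∀ v, q v = 0 ↔ ∃ a, f a = v

/-- The number `α`, algebraic over `ℚ₂`, is algebraic over `ℚ` and all its complex absolute values
are `p ^ (m / 2)`. -/
def Weil (m : ℤ) (p : ℕ) (α : AlgebraicClosure ℚ_[2]) : Prop :=
  IsAlgebraic ℚ α ∧ ∀ z : ℂ, Polynomial.aeval z (minpoly ℚ α) = 0 → ‖z‖ ^ 2 = (p : ℝ) ^ m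

/-- `V` is pure of weight `m`: for all prime numbers `p` not dividing some `N ≥ 1` (with `2 ∣ N`),
`V` is unramified at `p`, and all eigenvalues of the geometric Frobenius elements at `p` are
algebraic numbers with complex absolute values `p ^ (m / 2)`. -/
def Pure (m : ℤ) (V : Rep) : Prop :=
  ∃ N : ℕ, N ≠ 0 ∧ 2 ∣ N ∧ ∀ p : ℕ, p.Prime → ¬ p ∣ N → ∀ P : Ideal O, Over p P →
    (∀ g, Inert P g → ∀ v, V.ρ g v = v) ∧
    ∀ φ, IsFrob p P φ → ∀ α : AlgebraicClosure ℚ_[2],
      Polynomial.aeval α (LinearMap.charpoly (V.ρ φ⁻¹)) = 0 → Weil m p α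

/-- `V` has a finite increasing filtration by subrepresentations, the graded pieces of which are
pure of increasing weights `≤ m`. -/
inductive MixedLE : ℤ → Rep → Prop
  | zero (m : ℤ) (V : Rep) (h : ∀ v : V.V, v = 0) : MixedLE m V
  | step (m' m : ℤ) (A V B : Rep) (h : m' < m) (hA : MixedLE m' A) (hB : Pure m B)
      (hV : IsExt A V B) : MixedLE m V

/-- Mixed representations. -/
def Mixed (V : Rep) : Prop := ∃ m, MixedLE m V

/-- The Tate twist `ℚ₂(n)`. -/
def IsTate (n : ℤ) (V : Rep) : Prop :=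
  Module.finrank ℚ_[2] V.V = 1 ∧ ∀ g v, V.ρ g v = ((chiQ g ^ n : ℚ_[2]ˣ) : ℚ_[2]) • v

/-- `V` is a Tate twist `ℚ₂(n)`, or an extension of `ℚ₂(n)` by `ℚ₂(n+1)`. (Such a representation
is semistable at the prime `2`.) -/
def KummerType (V : Rep) : Prop :=
  ∃ n : ℤ, IsTate n V ∨ ∃ A B : Rep, IsTate (n + 1) A ∧ IsTate n B ∧ IsExt A V B

/-- An exact sequence `0 → W → X → Y → V → 0` of representations. -/
structure TwoExt (V W : Rep) where
  X : Rep
  Y : Rep
  f : W.V →ₗ[ℚ_[2]] X.V
  d : X.V →ₗ[ℚ_[2]] Y.V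
  q : Y.V →ₗ[ℚ_[2]] V.V
  hf : Equi W X f
  hd : Equi X Y d
  hq : Equi Y V q
  inj : Function.Injective f
  ex₁ : ∀ x, d x = 0 ↔ ∃ w, f w = x
  ex₂ : ∀ y, q y = 0 ↔ ∃ x, d x = y
  surj : Function.Surjective q

/-- There is a morphism from the sequence `S` to the sequence `T` which is the identity on `V` and
on `W`. -/
def TwoExt.Le {V W : Rep} (S T : TwoExt V W) : Prop :=
  ∃ (u : S.X.V →ₗ[ℚ_[2]] T.X.V) (w : S.Y.V →ₗ[ℚ_[2]] T.Y.V), Equi S.X T.X u ∧ Equi S.Y T.Y w ∧
    (∀ a, u (S.f a) = T.f a) ∧ (∀ x, w (S.d x) = T.d (u x)) ∧ ∀ y, T.q (w y) = S.q y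

/-- The sequence `0 → W → W → V → V → 0` with the identity maps and the map `0`. -/
noncomputable def TwoExt.trivial (V W : Rep) : TwoExt V W where
  X := W
  Y := V
  f := LinearMap.id
  d := 0
  q := LinearMap.id
  hf := fun _ _ => rfl
  hd := fun g v => by simp
  hq := fun _ _ => rfl
  inj := fun _ _ h => h
  ex₁ := fun x => ⟨fun _ => ⟨x, rfl⟩, fun _ => rfl⟩
  ex₂ := fun y => ⟨fun h => ⟨0, by simpa using h.symm⟩, fun ⟨_, h⟩ => by simpa using h.symm⟩
  surj := fun v => ⟨v, rfl⟩

/-- Equality in the Yoneda group `Ext²(V, W)` of the full subcategory `C` of representations: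
the equivalence relation on the sequences with middle terms in `C` generated by the morphisms. -/
def YonedaEq (C : Rep → Prop) {V W : Rep} (S T : TwoExt V W) : Prop :=
  Relation.EqvGen (fun S T : TwoExt V W => C S.X ∧ C S.Y ∧ C T.X ∧ C T.Y ∧ S.Le T) S T

/-- `Ext²(V, W) ≠ 0` in the full subcategory `C` (Yoneda): `V` and `W` are in `C`, and there is an
exact sequence `0 → W → X → Y → V → 0` in `C` the class of which is not the class `0`. -/
def ExtTwoNonzero (C : Rep → Prop) (V W : Rep) : Prop :=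
  C V ∧ C W ∧ ∃ T : TwoExt V W, C T.X ∧ C T.Y ∧ ¬ YonedaEq C T (TwoExt.trivial V W)

end Pool.Agent.Y150.CD
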