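import Pool.Agent.Y150.CD.Seq

/-!
# `Ext²(ℚ₂, ℚ₂(2)) ≠ 0`: the assembly (helper150)
-/

set_option autoImplicit false

namespace Pool.Agent.Y150.CD

theorem kum_coc {Z : Cyc} {c : ℕ} (K : Kum Z c) : Coc K.t := ⟨K.cont, K.co⟩

theorem yoneda_lift (hinv : S_inv) (C : Rep → Prop) {V W : Rep} (v : V.V)
    (hv : ∀ g, V.ρ g v = v) (S T : TwoExt V W) (h : YonedaEq C S T) : Lift S v ↔ Lift T v := by
  have key := (hinv V W v hv).1
  unfold YonedaEq at h
  induction h with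
  | rel S T h => exact key S T h.2.2.2.2
  | refl S => exact Iff.rfl
  | symm S T _ ih => exact ih.symm
  | trans S T U _ _ ih₁ ih₂ => exact ih₁.trans ih₂

theorem main (hcyc : S_cyc) (hchi : S_chi) (hkum : S_kum) (hfrob : S_frob) (hchf : S_chf)
    (hkin : S_kin) (hkfr : S_kfr) (htau : S_tau) (hval : S_val) (htam : S_tam) (hpro : S_pro)
    (hsel : S_sel) (hsum : S_sum) (hinv : S_inv) (hpur : S_pur) (hloc : S_loc)
    (C : Rep → Prop) (hC : ∀ V, Mixed V → KummerType V → C V) :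
    ∃ V W : Rep, IsTate 0 V ∧ IsTate 2 W ∧ ExtTwoNonzero C V W := by
  obtain ⟨Z⟩ := hcyc
  obtain ⟨p, hp, hp'⟩ := hsel
  have hK : ∀ i, Nonempty (Kum Z (p i)) := fun i => hkum Z (p i) (hp' i).1.ne_zero
  let K : ∀ i, Kum Z (p i) := fun i => Classical.choice (hK i)
  obtain ⟨L⟩ := hkum Z 3 (by norm_num)
  obtain ⟨a, ha, ha'⟩ := hsum (fun i => (K i).t) fun i => kum_coc (K i)
  obtain ⟨V, W, T, v, hV, hW, hX, hY, hv, hF⟩ := seq hchi.1 a L.t ha (kum_coc L)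
  have kt : ∀ U : Rep, KummerType U → C U := fun U hU => hC U (hpur hchf U hU) hU
  refine ⟨V, W, hV, hW, kt V ⟨0, Or.inl hV⟩, kt W ⟨2, Or.inl hW⟩, T, kt _ hX, kt _ hY, ?_⟩
  intro h
  obtain ⟨F, hF⟩ := hF ((yoneda_lift hinv C v hv T _ h).2 (hinv V W v hv).2)
  exact hloc hfrob hchf hkin hkfr htau hval htam hpro Z p hp' hp.injective K L a ha ha' F hF

end Pool.Agent.Y150.CD
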