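import Pool.Agent.Y150.CD.Stm

/-!
# The sequence attached to two Kummer cocycles (helper150)
-/

set_option autoImplicit false

namespace Pool.Agent.Y150.CD

lemma chiQ_val (g : G) : ((chiQ g : ℚ_[2]ˣ) : ℚ_[2]) = ch g := rfl

lemma ch_ne (g : G) : ch g ≠ 0 := (chiQ g).ne_zero

lemma ch_mul (g h : G) : ch (g * h) = ch g * ch h := by
  rw [← chiQ_val, map_mul, Units.val_mul, chiQ_val, chiQ_val]

lemma ch_one : ch 1 = 1 := by
  rw [← chiQ_val, map_one, Units.val_one]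

lemma chiQ_zpow (g : G) (n : ℤ) : ((chiQ g ^ n : ℚ_[2]ˣ) : ℚ_[2]) = ch g ^ n := by
  rw [Units.val_zpow_eq_zpow_val, chiQ_val]

lemma ch_cont (hχ : Continuous fun g : G => ((chi g : ℤ_[2]ˣ) : ℤ_[2])) : Continuous ch :=
  continuous_subtype_val.comp hχ

lemma ch_zpow_cont (hχ : Continuous fun g : G => ((chi g : ℤ_[2]ˣ) : ℤ_[2])) (n : ℤ) :
    Continuous fun g => ch g ^ n :=
  (ch_cont hχ).zpow₀ n fun g => Or.inl (ch_ne g)

/-- The twist `ℚ₂(n)`. -/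
noncomputable def tw (hχ : Continuous fun g : G => ((chi g : ℤ_[2]ˣ) : ℤ_[2])) (n : ℤ) : Rep where
  V := ℚ_[2]
  ρ :=
    { toFun := fun g => (ch g ^ n) • LinearMap.id
      map_one' := by rw [ch_one, one_zpow, one_smul]; rfl
      map_mul' := fun g h => by
        ext
        simp only [LinearMap.smul_apply, LinearMap.id_apply, smul_eq_mul, mul_one,
          Module.End.mul_apply, ch_mul, mul_zpow] }
  cont := fun v l => by
    have : (fun g : G => l (((ch g ^ n) • (LinearMap.id : ℚ_[2] →ₗ[ℚ_[2]] ℚ_[2])) v))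
        = fun g => ch g ^ n * l v := by
      funext g
      rw [LinearMap.smul_apply, LinearMap.id_apply, map_smul, smul_eq_mul]
    exact this ▸ (ch_zpow_cont hχ n).mul continuous_const

lemma tw_apply (hχ : Continuous fun g : G => ((chi g : ℤ_[2]ˣ) : ℤ_[2])) (n : ℤ) (g : G)
    (v : ℚ_[2]) : (tw hχ n).ρ g v = ch g ^ n * v := rfl

lemma tw_isTate (hχ : Continuous fun g : G => ((chi g : ℤ_[2]ˣ) : ℤ_[2])) (n : ℤ) :
    IsTate n (tw hχ n) := by
  refine ⟨Module.finrank_self ℚ_[2], fun g v => ?_⟩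
  rw [chiQ_zpow]
  rfl

/-- The linear map of `g` on the extension of `ℚ₂(n)` by `ℚ₂(n+1)` with the cocycle `a`. -/
noncomputable def kf (n : ℤ) (a : G → ℤ_[2]) (g : G) :
    (ℚ_[2] × ℚ_[2]) →ₗ[ℚ_[2]] (ℚ_[2] × ℚ_[2]) where
  toFun v := (ch g ^ (n + 1) * v.1 + ch g ^ n * a g * v.2, ch g ^ n * v.2)
  map_add' v w := by
    ext <;> simp only [Prod.fst_add, Prod.snd_add] <;> ring
  map_smul' c v := by
    ext <;> simp only [Prod.smul_fst, Prod.smul_snd, smul_eq_mul, RingHom.id_apply] <;> ring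

lemma coc_one {a : G → ℤ_[2]} (ha : Coc a) : a 1 = 0 := by
  have h := ha.2 1 1
  rw [one_mul, map_one, Units.val_one, one_mul] at h
  simpa using h.symm

lemma coc_cast {a : G → ℤ_[2]} (ha : Coc a) (g h : G) :
    ((a (g * h) : ℤ_[2]) : ℚ_[2]) = a g + ch g * a h := by
  rw [ha.2 g h]
  push_cast
  rfl

/-- The extension of `ℚ₂(n)` by `ℚ₂(n+1)` with the cocycle `a`. -/
noncomputable def kr (hχ : Continuous fun g : G => ((chi g : ℤ_[2]ˣ) : ℤ_[2])) (n : ℤ)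
    (a : G → ℤ_[2]) (ha : Coc a) : Rep where
  V := ℚ_[2] × ℚ_[2]
  ρ :=
    { toFun := kf n a
      map_one' := by
        apply LinearMap.ext
        intro v
        show (ch 1 ^ (n + 1) * v.1 + ch 1 ^ n * a 1 * v.2, ch 1 ^ n * v.2) = v
        rw [ch_one, coc_one ha]
        simp
      map_mul' := fun g h => by
        apply LinearMap.ext
        intro v
        show (ch (g * h) ^ (n + 1) * v.1 + ch (g * h) ^ n * a (g * h) * v.2, ch (g * h) ^ n * v.2)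
          = (ch g ^ (n + 1) * (ch h ^ (n + 1) * v.1 + ch h ^ n * a h * v.2)
              + ch g ^ n * a g * (ch h ^ n * v.2), ch g ^ n * (ch h ^ n * v.2))
        rw [coc_cast ha, ch_mul, mul_zpow, mul_zpow, zpow_add_one₀ (ch_ne g),
          zpow_add_one₀ (ch_ne h)]
        refine Prod.ext ?_ ?_ <;> ring }
  cont := fun v l => by
    have hl : ∀ w : ℚ_[2] × ℚ_[2], l w = w.1 * l (1, 0) + w.2 * l (0, 1) := by
      intro w
      have : w = w.1 • ((1, 0) : ℚ_[2] × ℚ_[2]) + w.2 • ((0, 1) : ℚ_[2] × ℚ_[2]) := by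
        ext <;> simp
      conv_lhs => rw [this, map_add, map_smul, map_smul, smul_eq_mul, smul_eq_mul]
    have ha' : Continuous fun g => ((a g : ℤ_[2]) : ℚ_[2]) := continuous_subtype_val.comp ha.1
    have h1 : Continuous fun g : G => ch g ^ (n + 1) * v.1 + ch g ^ n * a g * v.2 :=
      ((ch_zpow_cont hχ (n + 1)).mul continuous_const).add
        (((ch_zpow_cont hχ n).mul ha').mul continuous_const)
    have h2 : Continuous fun g : G => ch g ^ n * v.2 := (ch_zpow_cont hχ n).mul continuous_const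
    have e : (fun g : G => l (kf n a g v)) = fun g =>
        (ch g ^ (n + 1) * v.1 + ch g ^ n * a g * v.2) * l (1, 0) + (ch g ^ n * v.2) * l (0, 1) := by
      funext g
      exact hl _
    have : Continuous (fun g : G => l (kf n a g v)) := by
      rw [e]
      exact (h1.mul continuous_const).add (h2.mul continuous_const)
    exact this

lemma kr_apply (hχ : Continuous fun g : G => ((chi g : ℤ_[2]ˣ) : ℤ_[2])) (n : ℤ)
    (a : G → ℤ_[2]) (ha : Coc a) (g : G) (v : ℚ_[2] × ℚ_[2]) :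
    (kr hχ n a ha).ρ g v = (ch g ^ (n + 1) * v.1 + ch g ^ n * a g * v.2, ch g ^ n * v.2) := rfl

lemma kr_kummer (hχ : Continuous fun g : G => ((chi g : ℤ_[2]ˣ) : ℤ_[2])) (n : ℤ)
    (a : G → ℤ_[2]) (ha : Coc a) : KummerType (kr hχ n a ha) := by
  refine ⟨n, Or.inr ⟨tw hχ (n + 1), tw hχ n, tw_isTate hχ _, tw_isTate hχ _,
    LinearMap.inl ℚ_[2] ℚ_[2] ℚ_[2], LinearMap.snd ℚ_[2] ℚ_[2] ℚ_[2], ?_, ?_, ?_, ?_, ?_⟩⟩
  · intro g v
    change ℚ_[2] at v
    show ((ch g ^ (n + 1) * v, 0) : ℚ_[2] × ℚ_[2])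
      = (ch g ^ (n + 1) * v + ch g ^ n * a g * 0, ch g ^ n * 0)
    simp
  · intro g v
    rfl
  · exact (LinearMap.inl_injective : Function.Injective (LinearMap.inl ℚ_[2] ℚ_[2] ℚ_[2]))
  · exact (LinearMap.snd_surjective : Function.Surjective (LinearMap.snd ℚ_[2] ℚ_[2] ℚ_[2]))
  · intro v
    show v.2 = 0 ↔ ∃ x : ℚ_[2], ((x, 0) : ℚ_[2] × ℚ_[2]) = v
    constructor
    · intro h
      exact ⟨v.1, Prod.ext rfl h.symm⟩
    · rintro ⟨x, hx⟩
      rw [← hx]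

/-- The sequence `0 → ℚ₂(2) → X_b → Y_a → ℚ₂(0) → 0`. -/
noncomputable def sq (hχ : Continuous fun g : G => ((chi g : ℤ_[2]ˣ) : ℤ_[2]))
    (a b : G → ℤ_[2]) (ha : Coc a) (hb : Coc b) : TwoExt (tw hχ 0) (tw hχ 2) where
  X := kr hχ 1 b hb
  Y := kr hχ 0 a ha
  f := LinearMap.inl ℚ_[2] ℚ_[2] ℚ_[2]
  d := (LinearMap.inl ℚ_[2] ℚ_[2] ℚ_[2]).comp (LinearMap.snd ℚ_[2] ℚ_[2] ℚ_[2])
  q := LinearMap.snd ℚ_[2] ℚ_[2] ℚ_[2]
  hf := fun g (v : ℚ_[2]) => by
    show ((ch g ^ (2 : ℤ) * v, 0) : ℚ_[2] × ℚ_[2])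
      = (ch g ^ ((1 : ℤ) + 1) * v + ch g ^ (1 : ℤ) * b g * 0, ch g ^ (1 : ℤ) * 0)
    have : (1 : ℤ) + 1 = 2 := by norm_num
    rw [this]
    simp
  hd := fun g v => by
    show ((ch g ^ (1 : ℤ) * v.2, 0) : ℚ_[2] × ℚ_[2])
      = (ch g ^ ((0 : ℤ) + 1) * v.2 + ch g ^ (0 : ℤ) * a g * 0, ch g ^ (0 : ℤ) * 0)
    simp
  hq := fun g v => rfl
  inj := (LinearMap.inl_injective : Function.Injective (LinearMap.inl ℚ_[2] ℚ_[2] ℚ_[2]))
  ex₁ := fun v => by
    show ((v.2, 0) : ℚ_[2] × ℚ_[2]) = 0 ↔ ∃ x : ℚ_[2], ((x, 0) : ℚ_[2] × ℚ_[2]) = v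
    constructor
    · intro h
      exact ⟨v.1, Prod.ext rfl (congrArg Prod.fst h).symm⟩
    · rintro ⟨x, hx⟩
      rw [← hx]
      rfl
  ex₂ := fun v => by
    show v.2 = 0 ↔ ∃ x : ℚ_[2] × ℚ_[2], ((x.2, 0) : ℚ_[2] × ℚ_[2]) = v
    constructor
    · intro h
      exact ⟨(0, v.1), Prod.ext rfl h.symm⟩
    · rintro ⟨x, hx⟩
      rw [← hx]
  surj := (LinearMap.snd_surjective : Function.Surjective (LinearMap.snd ℚ_[2] ℚ_[2] ℚ_[2]))

theorem seq : S_seq := by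
  intro hχ a b ha hb
  refine ⟨tw hχ 0, tw hχ 2, sq hχ a b ha hb, (1 : ℚ_[2]), tw_isTate hχ 0, tw_isTate hχ 2,
    kr_kummer hχ 1 b hb, kr_kummer hχ 0 a ha, ?_, ?_⟩
  · intro g
    show ch g ^ (0 : ℤ) * (1 : ℚ_[2]) = 1
    simp
  · rintro ⟨y, hy, x, hxc, hx, hd⟩
    change ℚ_[2] × ℚ_[2] at y
    change G → ℚ_[2] × ℚ_[2] at x
    have hy2 : y.2 = 1 := hy
    have hx1 : ∀ g, (x g).2 = ch g * y.1 + a g - y.1 := by
      intro g
      have h := congrArg Prod.fst (hd g)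
      have h' : (x g).2 = ch g ^ ((0 : ℤ) + 1) * y.1 + ch g ^ (0 : ℤ) * a g * y.2 - y.1 := h
      rw [h', hy2]
      simp
    have hx0 : ∀ g h, (x (g * h)).1 = (x g).1 + (ch g ^ 2 * (x h).1 + ch g * b g * (x h).2) := by
      intro g h
      have h1 := congrArg Prod.fst (hx g h)
      have h' : (x (g * h)).1
        = (x g).1 + (ch g ^ ((1 : ℤ) + 1) * (x h).1 + ch g ^ (1 : ℤ) * b g * (x h).2) := h1
      rw [h']
      have : (1 : ℤ) + 1 = ((2 : ℕ) : ℤ) := by norm_num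
      rw [this, zpow_natCast, zpow_one]
    have hc1 : Continuous fun g => (x g).1 := hxc (LinearMap.fst ℚ_[2] ℚ_[2] ℚ_[2])
    have hb' : Continuous fun g => ((b g : ℤ_[2]) : ℚ_[2]) := continuous_subtype_val.comp hb.1
    refine ⟨fun g => (x g).1 - y.1 * (ch g * b g), ?_, ?_⟩
    · exact hc1.sub (continuous_const.mul ((ch_cont hχ).mul hb'))
    · intro g h
      show (x (g * h)).1 - y.1 * (ch (g * h) * b (g * h)) = (x g).1 - y.1 * (ch g * b g)
        + ch g ^ 2 * ((x h).1 - y.1 * (ch h * b h)) + ch g * b g * a h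
      rw [hx0, hx1, ch_mul, coc_cast hb]
      ring

end Pool.Agent.Y150.CD
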