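import Pool.Agent.Y150.CD.Defs

/-!
# The steps of the proof that `Ext²(ℚ₂, ℚ₂(2)) ≠ 0` (helper150)

Kummer data, and the exact statements `S_...` of the steps (they are `Prop`s, proved elsewhere).
-/

set_option autoImplicit false

namespace Pool.Agent.Y150.CD

/-- A compatible system of primitive `2`-power roots of unity. -/
structure Cyc where
  z : ℕ → Qb
  prim : ∀ n, IsPrimitiveRoot (z n) (2 ^ n)
  comp : ∀ n, z (n + 1) ^ 2 = z n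

/-- A compatible system of `2`-power roots of the number `c`, with its Kummer cocycle `t`. -/
structure Kum (Z : Cyc) (c : ℕ) where
  r : ℕ → Qb
  t : G → ℤ_[2]
  r0 : r 0 = c
  rs : ∀ n, r (n + 1) ^ 2 = r n
  cont : Continuous t
  co : ∀ g h, t (g * h) = t g + (chi g : ℤ_[2]) * t h
  act : ∀ (g : G) (n k : ℕ), (2 : ℤ_[2]) ^ n ∣ t g - k → g (r n) = Z.z n ^ k * r n

/-- The values of the cyclotomic character in `ℚ₂`. -/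
noncomputable def ch (g : G) : ℚ_[2] := ((chi g : ℤ_[2]ˣ) : ℤ_[2])

/-- `F` is a primitive of the cup product of `b` and `a`. -/
def Prim (b a : G → ℤ_[2]) (F : G → ℚ_[2]) : Prop :=
  Continuous F ∧ ∀ g h, F (g * h) = F g + ch g ^ 2 * F h + ch g * b g * a h

/-- A continuous cocycle with values in `ℤ₂(1)`. -/
def Coc (a : G → ℤ_[2]) : Prop :=
  Continuous a ∧ ∀ g h, a (g * h) = a g + (chi g : ℤ_[2]) * a h

/-- The vector `v` lifts to a cocycle in the sequence `T`. -/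
def Lift {V W : Rep} (T : TwoExt V W) (v : V.V) : Prop :=
  ∃ y, T.q y = v ∧ ∃ x : G → T.X.V, (∀ l : Module.Dual ℚ_[2] T.X.V, Continuous fun g => l (x g)) ∧
    (∀ g h, x (g * h) = x g + T.X.ρ g (x h)) ∧ ∀ g, T.d (x g) = T.Y.ρ g y - y

/-- Step CYC. -/
def S_cyc : Prop := Nonempty Cyc

/-- Step CHI. -/
def S_chi : Prop :=
  (Continuous fun g : G => ((chi g : ℤ_[2]ˣ) : ℤ_[2])) ∧
  ∀ (Z : Cyc) (g : G) (n k : ℕ), (2 : ℤ_[2]) ^ n ∣ ((chi g : ℤ_[2]ˣ) : ℤ_[2]) - k →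
    g (Z.z n) = Z.z n ^ k

/-- Step KUM. -/
def S_kum : Prop := ∀ (Z : Cyc) (c : ℕ), c ≠ 0 → Nonempty (Kum Z c)

/-- Step FROB. -/
def S_frob : Prop := ∀ p : ℕ, p.Prime →
  (∃ P : Ideal O, Over p P) ∧ ∀ P : Ideal O, Over p P →
    (∃ φ, IsFrob p P φ) ∧
    (∀ g h, Inert P g → Inert P h → Inert P (g * h)) ∧ (∀ g, Inert P g → Inert P g⁻¹) ∧
    (∀ φ g, IsFrob p P φ → Inert P g → Inert P (φ * g * φ⁻¹)) ∧
    IsClosed {g : G | Inert P g}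

/-- Step CHF. -/
def S_chf : Prop := ∀ p : ℕ, p.Prime → p ≠ 2 → ∀ P : Ideal O, Over p P →
  (∀ g, Inert P g → chi g = 1) ∧ ∀ φ, IsFrob p P φ → ((chi φ : ℤ_[2]ˣ) : ℤ_[2]) = p

/-- Step KIN. -/
def S_kin : Prop := ∀ (Z : Cyc) (p c : ℕ) (K : Kum Z c), p.Prime → p ≠ 2 → ∀ P : Ideal O,
  Over p P → ¬ p ∣ c → ∀ g, Inert P g → K.t g = 0

/-- Step KFR. -/
def S_kfr : Prop := ∀ (Z : Cyc) (p c : ℕ) (K : Kum Z c), p.Prime → p ≠ 2 → ∀ P : Ideal O,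
  Over p P → ¬ IsSquare (c : ZMod p) → ∀ φ, IsFrob p P φ → ¬ (2 : ℤ_[2]) ∣ K.t φ

/-- Step TAU. -/
def S_tau : Prop := ∀ (Z : Cyc) (p : ℕ) (K : Kum Z p), p.Prime → p ≠ 2 → ∀ P : Ideal O,
  Over p P → ∃ g, Inert P g ∧ ¬ (2 : ℤ_[2]) ∣ K.t g

/-- Step VAL. -/
def S_val : Prop := ∀ (p : ℕ), p.Prime → ∀ P : Ideal O, Over p P → ∀ x : Qb, x ≠ 0 →
  ∃ (e : ℕ) (v : ℤ) (α β : O), 0 < e ∧ α ∉ P ∧ β ∉ P ∧ x ^ e * (β : Qb) = (p : Qb) ^ v * (α : Qb)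

/-- Step TAM. -/
def S_tam : Prop := S_val → ∀ (Z : Cyc) (p : ℕ) (K : Kum Z p), p.Prime → p ≠ 2 →
  ∀ P : Ideal O, Over p P → ∀ h : G → ℚ_[2], Continuous h →
    (∀ g g', Inert P g → Inert P g' → h (g * g') = h g + h g') →
    ∀ g, Inert P g → K.t g = 0 → h g = 0

/-- Step PRO. -/
def S_pro : Prop := S_frob → S_chf → S_tam → S_val → ∀ (Z : Cyc) (p : ℕ) (K : Kum Z p), p.Prime →
  p ≠ 2 → ∀ P : Ideal O, Over p P → ∀ h : G → ℚ_[2], Continuous h →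
    (∀ g g', Inert P g → Inert P g' → h (g * g') = h g + h g') →
    ∀ g g', Inert P g → Inert P g' → ((K.t g : ℤ_[2]) : ℚ_[2]) * h g' = ((K.t g' : ℤ_[2]) : ℚ_[2]) * h g

/-- Step SEL. -/
def S_sel : Prop := ∃ p : ℕ → ℕ, StrictMono p ∧ ∀ i, (p i).Prime ∧ 3 < p i ∧
  2 ^ (2 * i + 2) ∣ p i - 1 ∧ ¬ IsSquare (3 : ZMod (p i))

/-- Step SUM. -/
def S_sum : Prop := ∀ t : ℕ → G → ℤ_[2], (∀ i, Coc (t i)) → ∃ a : G → ℤ_[2], Coc a ∧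
  ∀ i g, (∀ j, j ≠ i → t j g = 0) → a g = 2 ^ i * t i g

/-- Step INV. -/
def S_inv : Prop := ∀ (V W : Rep) (v : V.V), (∀ g, V.ρ g v = v) →
  (∀ S T : TwoExt V W, S.Le T → (Lift S v ↔ Lift T v)) ∧ Lift (TwoExt.trivial V W) v

/-- Step SEQ. -/
def S_seq : Prop := (Continuous fun g : G => ((chi g : ℤ_[2]ˣ) : ℤ_[2])) →
  ∀ a b : G → ℤ_[2], Coc a → Coc b → ∃ (V W : Rep) (T : TwoExt V W) (v : V.V),
    IsTate 0 V ∧ IsTate 2 W ∧ KummerType T.X ∧ KummerType T.Y ∧ (∀ g, V.ρ g v = v) ∧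
    (Lift T v → ∃ F : G → ℚ_[2], Prim b a F)

/-- Step PUR. -/
def S_pur : Prop := S_chf → ∀ V : Rep, KummerType V → Mixed V

/-- Step LOC. -/
def S_loc : Prop := S_frob → S_chf → S_kin → S_kfr → S_tau → S_val → S_tam → S_pro →
  ∀ (Z : Cyc) (p : ℕ → ℕ), (∀ i, (p i).Prime ∧ 3 < p i ∧
    2 ^ (2 * i + 2) ∣ p i - 1 ∧ ¬ IsSquare (3 : ZMod (p i))) → Function.Injective p →
  ∀ (K : ∀ i, Kum Z (p i)) (L : Kum Z 3) (a : G → ℤ_[2]), Coc a →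
    (∀ i g, (∀ j, j ≠ i → (K j).t g = 0) → a g = 2 ^ i * (K i).t g) →
    ∀ F : G → ℚ_[2], ¬ Prim L.t a F

end Pool.Agent.Y150.CD
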